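import Pool.Agent.Q221.FibProd.Comp

set_option autoImplicit false

/-!
# It is decidable whether a subdirect product of two free semigroups is a fiber product

Let `S ≤ A⁺ × B⁺` be the subdirect product generated by the finite set `X`. `S` is a fiber product
iff `(u, v), (u', v), (u', v') ∈ S` implies `(u, v') ∈ S`. This holds for all words as soon as it
holds for the products of at most `3 l + l² + 1` generators, where `l` is the total length of the
words in `X`: it then follows that replacing a factor `p` of a word by `β(q)`, where `(p, q) ∈ X`
and `β : B⁺ → A⁺` is a homomorphism with `(β(b), b) ∈ X` for all letters `b`, does not change the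
set of partners of the word, because every word in `A⁺` that has a partner can be cut near the
factor. Membership in `S` is decidable, so this is a decision procedure.

The definitions are in `Pool.Agent.Q221.FibProd.Def`.
-/

namespace Pool.Agent.Results.MP_b63848_al.FiberProductDecidable

open Pool.Agent.Q221.FibProd

/-- Every finite set of pairs of nonempty words over the alphabets `Fin (m + 1)`, `Fin (n + 1)` has
a code; it is decidable, given a code, whether the subsemigroup generated by the coded set is a
subdirect product; and it is decidable whether it is a subdirect product that is a fiber
product. -/
theorem result :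
    (∀ (m n : ℕ) (X : Finset (FreeSemigroup (Fin (m + 1)) × FreeSemigroup (Fin (n + 1)))),
      ∃ L : List (List ℕ × List ℕ), gens ((m, n), L) = X) ∧
    (ComputablePred fun c : Code => IsSubdirect (sg c)) ∧
    (ComputablePred fun c : Code => IsSubdirect (sg c) ∧ IsFiberProduct (sg c)) := by
  refine ⟨?_, computable_subdirect, computable_both⟩
  intro m n X
  refine ⟨X.toList.map fun p => (word p.1, word p.2), ?_⟩
  ext ⟨u, v⟩
  constructor
  · intro h
    change (word u, word v) ∈ X.toList.map fun p => (word p.1, word p.2) at h
    rw [List.mem_map] at h
    obtain ⟨⟨u', v'⟩, hp, he⟩ := h
    simp only [Prod.mk.injEq] at he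
    have e1 := word_injective he.1
    have e2 := word_injective he.2
    subst e1 e2
    simpa using hp
  · intro h
    change (word u, word v) ∈ X.toList.map fun p => (word p.1, word p.2)
    rw [List.mem_map]
    exact ⟨(u, v), by simpa using h, rfl⟩

end Pool.Agent.Results.MP_b63848_al.FiberProductDecidable
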